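import Pool.Agent.H82.EUC.Stmts5

/-!
Board `euc`, row NIS: closed sets and independent sets.
-/

set_option autoImplicit false

namespace Pool.EUC

/-- Complement on the side of `V`. -/
private def nis_flip {V E : Type} (S : Set (V ⊕ E)) : Set (V ⊕ E) :=
  {z | (∃ v, z = Sum.inl v ∧ Sum.inl v ∉ S) ∨ ∃ e, z = Sum.inr e ∧ Sum.inr e ∈ S}

private theorem nis_inl {V E : Type} (S : Set (V ⊕ E)) (v : V) :
    Sum.inl v ∈ nis_flip S ↔ Sum.inl v ∉ S := by
  simp [nis_flip]

private theorem nis_inr {V E : Type} (S : Set (V ⊕ E)) (e : E) :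
    Sum.inr e ∈ nis_flip S ↔ Sum.inr e ∈ S := by
  simp [nis_flip]

private theorem nis_flip_flip {V E : Type} (S : Set (V ⊕ E)) : nis_flip (nis_flip S) = S := by
  ext z
  rcases z with v | e
  · rw [nis_inl, nis_inl, not_not]
  · rw [nis_inr, nis_inr]

/-- Row NIS. -/
theorem nis_thm : NIS_S := by
  intro V E C
  refine Nat.card_congr
    { toFun := fun S => ⟨nis_flip S.1, fun v e hC h => ?_⟩
      invFun := fun S => ⟨nis_flip S.1, fun v e hC h => ?_⟩
      left_inv := fun S => Subtype.ext (nis_flip_flip S.1)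
      right_inv := fun S => Subtype.ext (nis_flip_flip S.1) }
  · rw [nis_inl, nis_inr] at h
    exact h.1 (S.2 v e hC h.2)
  · rw [nis_inr] at h
    rw [nis_inl]
    exact fun hv => S.2 v e hC ⟨hv, h⟩

end Pool.EUC
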